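import Pool.Agent.LE.StmtsM

/-!
# FNM: the mean of the Lyapunov exponent over an interval

`WinStmt` with `η = K₁ σ² l⁴` and the radius `2 η`, and a covering of `[a, b]` by at most
`(b - a) / (2 η) + 1` such intervals with centres in `[a, b]`.
-/

set_option autoImplicit false

open MeasureTheory ProbabilityTheory Function Filter

open scoped ENNReal BigOperators Topology NNReal

noncomputable section

namespace Pool.Agent.LE.MN.H19

open Pool.Agent.LE Pool.Agent.LE.MN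

theorem cover (f : ℝ → ℝ≥0∞) (a b η : ℝ) (B : ℝ≥0∞) (hη : 0 < η) (hab : a ≤ b)
    (h : ∀ e ∈ Set.Icc a b, ∫⁻ x in Set.Icc (e - 2 * η) (e + 2 * η), f x ≤ B) :
    ∫⁻ x in Set.Icc a b, f x ≤ ENNReal.ofReal ((b - a) / (2 * η) + 1) * B := by
  set m : ℕ := ⌊(b - a) / (2 * η)⌋₊ with hm
  have h2η : 0 < 2 * η := by linarith
  have hq : 0 ≤ (b - a) / (2 * η) := div_nonneg (by linarith) h2η.le
  have hsub : Set.Icc a b ⊆ ⋃ j : Fin (m + 1), Set.Icc (a + (j : ℕ) * (2 * η) - 2 * η)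
      (a + (j : ℕ) * (2 * η) + 2 * η) := by
    intro x hx
    have hx0 : 0 ≤ (x - a) / (2 * η) := div_nonneg (by linarith [hx.1]) h2η.le
    have h1 := Nat.floor_le hx0
    have h2 := Nat.lt_floor_add_one ((x - a) / (2 * η))
    have h3 : ⌊(x - a) / (2 * η)⌋₊ < m + 1 := by
      refine Nat.lt_succ_of_le (Nat.floor_le_floor ?_)
      exact div_le_div_of_nonneg_right (by linarith [hx.2]) h2η.le
    rw [Set.mem_iUnion]
    refine ⟨⟨_, h3⟩, ?_⟩
    have h4 : (⌊(x - a) / (2 * η)⌋₊ : ℝ) * (2 * η) ≤ x - a := (le_div_iff₀ h2η).mp h1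
    have h5 : x - a < ((⌊(x - a) / (2 * η)⌋₊ : ℝ) + 1) * (2 * η) := (div_lt_iff₀ h2η).mp h2
    constructor
    · show a + (⌊(x - a) / (2 * η)⌋₊ : ℝ) * (2 * η) - 2 * η ≤ x
      linarith
    · show x ≤ a + (⌊(x - a) / (2 * η)⌋₊ : ℝ) * (2 * η) + 2 * η
      linarith
  have hmem : ∀ j : Fin (m + 1), a + (j : ℕ) * (2 * η) ∈ Set.Icc a b := by
    intro j
    have hj : (j : ℕ) ≤ m := Nat.lt_succ_iff.mp j.isLt
    have h1 : ((j : ℕ) : ℝ) ≤ (b - a) / (2 * η) :=
      le_trans (by exact_mod_cast hj) (Nat.floor_le hq)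
    have h2 : ((j : ℕ) : ℝ) * (2 * η) ≤ b - a := (le_div_iff₀ h2η).mp h1
    have h3 : 0 ≤ ((j : ℕ) : ℝ) * (2 * η) := mul_nonneg (Nat.cast_nonneg _) h2η.le
    exact ⟨by linarith, by linarith⟩
  calc ∫⁻ x in Set.Icc a b, f x
      ≤ ∫⁻ x in ⋃ j : Fin (m + 1), Set.Icc (a + (j : ℕ) * (2 * η) - 2 * η)
        (a + (j : ℕ) * (2 * η) + 2 * η), f x := lintegral_mono_set hsub
    _ ≤ ∑' j : Fin (m + 1), ∫⁻ x in Set.Icc (a + (j : ℕ) * (2 * η) - 2 * η)
        (a + (j : ℕ) * (2 * η) + 2 * η), f x := lintegral_iUnion_le _ _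
    _ ≤ ∑' _j : Fin (m + 1), B := ENNReal.tsum_le_tsum fun j => h _ (hmem j)
    _ = ((m + 1 : ℕ) : ℝ≥0∞) * B := by
        rw [tsum_fintype, Finset.sum_const, Finset.card_univ, Fintype.card_fin, nsmul_eq_mul]
    _ ≤ ENNReal.ofReal ((b - a) / (2 * η) + 1) * B := by
        refine mul_le_mul_left ?_ B
        rw [← ENNReal.ofReal_natCast]
        refine ENNReal.ofReal_le_ofReal ?_
        push_cast
        linarith [Nat.floor_le hq]

theorem fnm (fne : FneStmt) (win : WinStmt) : FnmStmt := by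
  intro d δ hd hδ
  obtain ⟨c, C, K₁, hc, hc4, hC, hK, H⟩ := fne d δ hd hδ
  refine ⟨c, 4 * K₁ * C, hc, hc4, ?_, ?_⟩
  · nlinarith
  intro σ a b γ hσ hσc hγ ha hb hab
  set l : ℝ := Real.log (1 / |σ|) with hl
  have hσ0 : 0 < |σ| := abs_pos.mpr hσ
  have hl0 : 0 < l := by
    rw [hl]
    refine Real.log_pos ?_
    rw [lt_div_iff₀ hσ0]
    linarith
  have hσ2 : 0 < σ ^ 2 := by positivity
  set η : ℝ := K₁ * σ ^ 2 * l ^ 4 with hη
  have hη0 : 0 < η := by
    rw [hη]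
    positivity
  have hη1 : η ≤ K₁ * (b - a) := by
    rw [hη, mul_assoc]
    exact mul_le_mul_of_nonneg_left hab (by linarith)
  have hba : 0 < b - a := lt_of_lt_of_le (by positivity) hab
  set X : ℝ := C * σ ^ 2 * l ^ 5 with hX
  have hX0 : 0 < X := by
    rw [hX]
    positivity
  have key : ∀ e ∈ Set.Icc a b,
      ∫⁻ x in Set.Icc (e - 2 * η) (e + 2 * η), ENNReal.ofReal (γ x) ≤
        ENNReal.ofReal (5 / 2 * η * X) := by
    intro e he
    have he' : |e| ≤ 2 * d - δ := by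
      rw [abs_le]
      exact ⟨by linarith [he.1], by linarith [he.2]⟩
    have h1 := win γ e η (2 * η) hη0 (by linarith)
    have h2 := H σ e γ hσ hσc hγ he'
    have h3 : (η ^ 2 + (2 * η) ^ 2) / (2 * η) = 5 / 2 * η := by
      field_simp
      ring
    rw [h3] at h1
    refine h1.trans ?_
    rw [ENNReal.ofReal_mul (by positivity : (0 : ℝ) ≤ 5 / 2 * η)]
    exact mul_le_mul_right h2 _
  refine (cover (fun x => ENNReal.ofReal (γ x)) a b η _ hη0 (by linarith) key).trans ?_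
  rw [← ENNReal.ofReal_mul (by positivity)]
  refine ENNReal.ofReal_le_ofReal ?_
  have e1 : ((b - a) / (2 * η) + 1) * (5 / 2 * η * X) = (5 / 4 * (b - a) + 5 / 2 * η) * X := by
    field_simp
    ring
  have e2 : 4 * K₁ * C * σ ^ 2 * l ^ 5 * (b - a) = 4 * K₁ * (b - a) * X := by
    rw [hX]
    ring
  rw [e1, e2]
  refine mul_le_mul_of_nonneg_right ?_ hX0.le
  nlinarith [mul_nonneg (sub_nonneg.mpr hK) hba.le]

end Pool.Agent.LE.MN.H19
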